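import Mathlib
import Pool.Agent.R747.StatWeber

/-!
Complete stationary surfaces in `ℝ⁴₁` with finite total Gaussian and normal curvature and nonzero
total normal curvature.
-/

open MeasureTheory
open scoped ContDiff

namespace Pool.Agent.Results.MP_364e81_gt.WeberSurface

open Pool.Agent.R747.Stat

/-- There is `δ > 0` such that every real number `κ` in `[0, δ]` is the total normal curvature of a
complete stationary surface in `ℝ⁴₁` with finite total Gaussian curvature and finite total absolute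
normal curvature. -/
theorem result : ∃ δ : ℝ, 0 < δ ∧ ∀ κ : ℝ, 0 ≤ κ → κ ≤ δ →
    ∃ X N₃ N₄ : ℂ → Fin 4 → ℝ, ContDiff ℝ ∞ X ∧ ContDiff ℝ ∞ N₃ ∧ ContDiff ℝ ∞ N₄ ∧
      IsSpacelike X ∧ HasZeroMeanCurvature X ∧ IsCompleteMetric X ∧ IsNormalFrame X N₃ N₄ ∧
      Integrable (fun p => gaussCurvature X p * areaDensity X p) ∧
      Integrable (fun p => normalCurvature X N₃ N₄ p * areaDensity X p) ∧
      ∫ p, normalCurvature X N₃ N₄ p * areaDensity X p = κ := by
  obtain ⟨δ, hδ, h⟩ := weber_surfaces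
  have hpi : 0 < 4 * Real.pi := by positivity
  refine ⟨4 * Real.pi * δ, by positivity, fun κ h0 h1 => ?_⟩
  obtain ⟨X, N₃, N₄, a1, a2, a3, a4, a5, a6, a7, a8, a9, a10⟩ :=
    h (κ / (4 * Real.pi)) (by positivity) (by rwa [div_le_iff₀ hpi, mul_comm δ])
  refine ⟨X, N₃, N₄, a1, a2, a3, a4, a5, a6, a7, a8, a9, ?_⟩
  rw [a10, mul_div_cancel₀ _ hpi.ne']

end Pool.Agent.Results.MP_364e81_gt.WeberSurface
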